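import Pool.Agent.W425.BF.Stm
import Pool.Agent.W375.MG.Out

set_option autoImplicit false

/-! Project BM: motivic zeta functions, the rays which are B1 in a given direction give no poles. -/

namespace Pool.Agent.W425.BM

open Pool.Agent.W425.BF Pool.Agent.W428.MOT Pool.Agent.W375.MG
open Pool.Agent.W426.SM (gord ford face IsRay)
open Pool.Agent.W803.SM (filt)
open Pool.Agent.W63.MTFin (ev)

/-- the number of the free coordinates -/
noncomputable def fc {n k : ℕ} (m : Fin k → Fin n → ℕ) (J : Finset (Fin n))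
    (τ : Finset (Fin k)) : ℕ := (free (0 : Fin n → ℕ) m J τ).card

/-- the series of the cone of type `(J, τ)` -/
noncomputable def Cs {n k : ℕ} (m : Fin k → Fin n → ℕ) (J : Finset (Fin n))
    (τ : Finset (Fin k)) : PowerSeries (Polynomial ℤ) :=
  PowerSeries.mk fun N => cp (0 : Fin n → ℕ) m 1 J τ N N

/-- the denominator -/
noncomputable def den {n k : ℕ} (m : Fin k → Fin n → ℕ) (l : List (Fin n → ℕ)) :
    PowerSeries (Polynomial ℤ) :=
  (l.map fun a => 1 - PowerSeries.C (Polynomial.X ^ (∑ i, a i)) * PowerSeries.X ^ gord m a).prod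

/-- evaluation of a polynomial over `ℤ[X]` at `X = x`, `T = t` -/
noncomputable def evx (P : Polynomial (Polynomial ℤ)) (x t : ℂ) : ℂ :=
  Polynomial.eval₂ (Polynomial.eval₂RingHom (Int.castRingHom ℂ) x) t P

/-- the value of the denominator -/
noncomputable def denx {n k : ℕ} (m : Fin k → Fin n → ℕ) (l : List (Fin n → ℕ)) (x t : ℂ) : ℂ :=
  (l.map fun a => 1 - x ^ (∑ i, a i) * t ^ gord m a).prod

/-- the sum over the vectors with support `J` -/
noncomputable def SJ {n k : ℕ} (m : Fin k → Fin n → ℕ) (γ : Finset (Fin k) → Polynomial ℂ) (p : ℕ)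
    (J : Finset (Fin n)) (t : ℂ) : ℂ :=
  ∑' u : {u : Fin n → ℕ // Adm J u},
    (p : ℂ)⁻¹ ^ (∑ x, u.1 x) * t ^ gord m u.1 * (γ (filt m u.1)).eval t

/-- (CJ) COMB for the vectors with support `J` -/
def TaskCJ : Prop :=
  ∀ {n k : ℕ} (m : Fin k → Fin n → ℕ) (i : Fin n), 0 < k → ∀ J : Finset (Fin n),
    ∃ (T : ℕ) (ray : Fin T → Fin n → ℕ), (∀ q, IsRay m (ray q) ∧ ¬ Rem m i (ray q)) ∧
      ∀ (p : ℕ), 2 ≤ p → ∀ (γ : Finset (Fin k) → Polynomial ℂ), (i ∈ J → ∃ E, Rel m i p E γ) →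
        ∃ A : Polynomial ℂ, ∀ t : ℂ, ‖t‖ < 1 →
          SJ m γ p J t *
            ∏ q, (1 - (p : ℂ)⁻¹ ^ (∑ x, ray q x) * t ^ gord m (ray q)) = A.eval t

/-- (LINK) the value of the series of type `(J, τ)` at `X = 1 / p`, `T = t` -/
def TaskLINK : Prop :=
  ∀ {n k : ℕ} (m : Fin k → Fin n → ℕ), 0 < k → ∀ (J : Finset (Fin n)) (τ : Finset (Fin k)) (p : ℕ),
    2 ≤ p → ∀ t : ℂ, ‖t‖ < 1 →
      HasSum (fun N : ℕ => (PowerSeries.coeff N (Cs m J τ)).eval₂ (Int.castRingHom ℂ) (p : ℂ)⁻¹ *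
          t ^ N)
        ((1 - (p : ℂ)⁻¹) ^ fc m J τ *
          ∑' u : {u : Fin n → ℕ // Adm J u ∧ filt m u = τ},
            (p : ℂ)⁻¹ ^ (∑ x, u.1 x) * t ^ gord m u.1)

/-- (TR) transfer of divisibility from the values at `X = 1 / p` to power series over `ℤ[X]` -/
def TaskTR : Prop :=
  ∀ {n k : ℕ} (m : Fin k → Fin n → ℕ) (S : PowerSeries (Polynomial ℤ)) (l l' : List (Fin n → ℕ))
    (P : Polynomial (Polynomial ℤ)), (∀ a ∈ l, a ≠ 0 ∧ 0 < gord m a) →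
    (∀ a ∈ l', a ≠ 0 ∧ 0 < gord m a) →
    S * den m l = ((P : Polynomial (Polynomial ℤ)) : PowerSeries (Polynomial ℤ)) →
    (∀ p : ℕ, 2 ≤ p → ∃ B : Polynomial ℂ, ∀ t : ℂ, ‖t‖ < 1 →
      evx P (p : ℂ)⁻¹ t * denx m l' (p : ℂ)⁻¹ t = B.eval t * denx m l (p : ℂ)⁻¹ t) →
    ∃ Q : Polynomial (Polynomial ℤ),
      S * den m l' = ((Q : Polynomial (Polynomial ℤ)) : PowerSeries (Polynomial ℤ))

/-- (RATG) rationality with all the rays -/
def TaskRATG : Prop :=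
  ∀ {n k : ℕ} (m : Fin k → Fin n → ℕ), 0 < k → ∀ (J : Finset (Fin n)) (τ : Finset (Fin k)),
    ∃ (l : List (Fin n → ℕ)) (P : Polynomial (Polynomial ℤ)),
      (∀ a ∈ l, IsRay m a ∧ 0 < gord m a) ∧
      Cs m J τ * den m l = ((P : Polynomial (Polynomial ℤ)) : PowerSeries (Polynomial ℤ))

/-- the coefficient at `τ` of a combination of the series, at `X = 1 / p` -/
noncomputable def gb {n k : ℕ} (m : Fin k → Fin n → ℕ) (J : Finset (Fin n))
    (β : Finset (Fin k) → Polynomial (Polynomial ℤ)) (p : ℕ) (τ : Finset (Fin k)) :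
    Polynomial ℂ :=
  Polynomial.C ((1 - (p : ℂ)⁻¹) ^ fc m J τ) *
    (β τ).map (Polynomial.eval₂RingHom (Int.castRingHom ℂ) (p : ℂ)⁻¹)

/-- the combination of the series -/
noncomputable def cmb {n k : ℕ} (m : Fin k → Fin n → ℕ) (J : Finset (Fin n))
    (β : Finset (Fin k) → Polynomial (Polynomial ℤ)) : PowerSeries (Polynomial ℤ) :=
  ∑ τ, ((β τ : Polynomial (Polynomial ℤ)) : PowerSeries (Polynomial ℤ)) * Cs m J τ

/-- (FOR) the formal statement -/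
def TaskFOR : Prop :=
  ∀ {n k : ℕ} (m : Fin k → Fin n → ℕ) (i : Fin n), 0 < k → ∀ J : Finset (Fin n),
    ∃ l : List (Fin n → ℕ), (∀ a ∈ l, IsRay m a ∧ 0 < gord m a ∧ ¬ Rem m i a) ∧
      ∀ β : Finset (Fin k) → Polynomial (Polynomial ℤ),
        (i ∈ J → ∀ p : ℕ, 2 ≤ p → ∃ E, Rel m i p E (gb m J β p)) →
        ∃ P : Polynomial (Polynomial ℤ),
          cmb m J β * den m l = ((P : Polynomial (Polynomial ℤ)) : PowerSeries (Polynomial ℤ))

/-- (CJA), (FORA) -/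
def TaskCJA : Prop := TaskI → TaskCOMB → TaskCJ
def TaskFORA : Prop := TaskCJ → TaskLINK → TaskTR → TaskRATG → TaskFOR

/-- the monomials of `τ` not divisible by `x_i` -/
def bs {n k : ℕ} (m : Fin k → Fin n → ℕ) (i : Fin n) (τ : Finset (Fin k)) : Finset (Fin k) :=
  τ.filter fun j => m j i = 0

/-- `τ` is a pyramid over a nonempty base in `x_i = 0` with an apex at height one -/
def IsB1 {n k : ℕ} (m : Fin k → Fin n → ℕ) (i : Fin n) (τ : Finset (Fin k)) : Prop :=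
  (bs m i τ).Nonempty ∧ ∃ j0, m j0 i = 1 ∧ τ = insert j0 (bs m i τ)

/-- `τ` is an apex -/
def IsAp {n k : ℕ} (m : Fin k → Fin n → ℕ) (i : Fin n) (τ : Finset (Fin k)) : Prop :=
  ∃ j0, m j0 i = 1 ∧ τ = {j0}

/-- the relations between the classes -/
def RelC {R : Type} [CommRing R] {n k : ℕ} (m : Fin k → Fin n → ℕ) (i : Fin n)
    (J : Finset (Fin n)) (L ε : R) (x0 x1 : Finset (Fin k) → R) : Prop :=
  (∀ τ, IsAp m i τ → x0 τ = ε * (L - 1) ^ (J.card - 1 - fc m J τ) ∧ x1 τ = 0) ∧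
  ∀ τ, IsB1 m i τ →
    x0 τ + (L - 1) ^ (fc m J (bs m i τ) - 1 - fc m J τ) * x0 (bs m i τ) =
      ε * (L - 1) ^ (J.card - 1 - fc m J τ) ∧
    x1 τ + (L - 1) ^ (fc m J (bs m i τ) - 1 - fc m J τ) * x1 (bs m i τ) =
      ε * (L - 1) ^ (J.card - 1 - fc m J τ)

/-- (CLS) the relations hold for the classes -/
def TaskCLS : Prop :=
  ∀ {K : Type} [Field K] [CharZero K] {n k : ℕ} {R : Type} [CommRing R] (M : Meas K R)
    (m : Fin k → Fin n → ℕ) (c : Fin k → K), (∀ j, c j ≠ 0) →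
    ∀ (W : Set (Pt K (Fin n))) (E : Set (AlgebraicClosure K)), Constr W → Good E →
    ∀ (i : Fin n) (J : Finset (Fin n)), i ∈ J → ∃ ε : R,
      RelC m i J M.L ε (fun τ => M.χ _ (GB0 (0 : Fin n → ℕ) m c 1 W E J τ))
        (fun τ => M.χ _ (GB1 (0 : Fin n → ℕ) m c 1 W E J τ))

/-- (ALM) the algebra: the sum over `τ` -/
def TaskALM : Prop :=
  ∀ (K : Type) [Field K] {n k : ℕ} (m : Fin k → Fin n → ℕ) (i : Fin n) (J : Finset (Fin n)),
    i ∈ J → ∀ (S : Set (ℤ × ℤ)), ((-1 : ℤ), (1 : ℤ)) ∈ S →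
    (∀ β : Finset (Fin k) → Polynomial (Polynomial ℤ),
      (∀ p : ℕ, 2 ≤ p → ∃ E, Rel m i p E (gb m J β p)) →
      PowerSeries.map (ev K) (cmb m J β) ∈ ratRing K S) →
    ∀ (L Y ε : MK K), L * Y = 1 → (∀ P : Polynomial ℤ, ev K P = P.eval₂ (Int.castRingHom _) Y) →
    ∀ x0 x1 : Finset (Fin k) → MK K, RelC m i J L ε x0 x1 →
      (∑ τ : Finset (Fin k), PowerSeries.C (L ^ fc m J τ) *
        (PowerSeries.C (x0 τ) * (1 - PowerSeries.C Y * PowerSeries.X) +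
          PowerSeries.C (x1 τ) * (PowerSeries.C Y * PowerSeries.X)) *
        PowerSeries.map (ev K) (Cs m J τ)) ∈ ratRing K S

end Pool.Agent.W425.BM
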